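import Pool.Agent.Helper94.GA.Goals

namespace Pool.Agent.Helper73.GA

open Pool.Agent.Helper94.GA Module
open scoped commutatorElement

universe u

variable {H : Type u} [Group H]

/-- additive characters of a subgroup -/
abbrev VV (A : Subgroup H) := Additive A →+ AlgebraicClosure ℚ

/-- The action on characters. -/
noncomputable def TT (A : Subgroup H) [A.Normal] (n : H) :
    Module.End (AlgebraicClosure ℚ) (VV A) :=
  ({ toFun := fun f => f.comp (MonoidHom.toAdditive (MulAut.conjNormal n : A ≃* A).toMonoidHom)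
     map_add' := fun f g => by ext x; rfl
     map_smul' := fun c f => by ext x; rfl } : VV A →ₗ[AlgebraicClosure ℚ] VV A)

variable (A : Subgroup H) [A.Normal]

theorem TT_apply (n : H) (f : VV A) (a : A) :
    TT A n f (Additive.ofMul a) = f (Additive.ofMul (MulAut.conjNormal n a)) := rfl

theorem TT_one : TT A 1 = 1 := by
  refine LinearMap.ext fun f => ?_
  refine AddMonoidHom.ext fun x => ?_
  change f (Additive.ofMul (MulAut.conjNormal (1:H) (Additive.toMul x))) = f x
  rw [map_one]; rfl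

theorem TT_mul' (m n : H) : TT A (m * n) = TT A n * TT A m := by
  refine LinearMap.ext fun f => ?_
  refine AddMonoidHom.ext fun x => ?_
  change f (Additive.ofMul (MulAut.conjNormal (m * n) (Additive.toMul x))) =
    f (Additive.ofMul (MulAut.conjNormal m (MulAut.conjNormal n (Additive.toMul x))))
  rw [map_mul]; rfl

theorem TT_mem (hA : ∀ a ∈ A, ∀ b ∈ A, a * b = b * a) (a : H) (ha : a ∈ A) : TT A a = 1 := by
  refine LinearMap.ext fun f => ?_
  refine AddMonoidHom.ext fun x => ?_
  change f (Additive.ofMul (MulAut.conjNormal a (Additive.toMul x))) = f x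
  congr 1
  change Additive.ofMul _ = Additive.ofMul (Additive.toMul x)
  congr 1
  apply Subtype.ext
  rw [MulAut.conjNormal_apply, hA a ha _ (Additive.toMul x).2]
  group

theorem TT_comm (hA : ∀ a ∈ A, ∀ b ∈ A, a * b = b * a) (hc : commutator H ≤ A) (m n : H) :
    TT A m * TT A n = TT A n * TT A m := by
  have h1 : m * n = ⁅m, n⁆ * (n * m) := by rw [commutatorElement_def]; group
  have h2 : ⁅m, n⁆ ∈ A := hc (by
    rw [commutator_def]; exact Subgroup.commutator_mem_commutator (Subgroup.mem_top _) (Subgroup.mem_top _))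
  have h3 := TT_mul' A m n
  rw [h1, TT_mul', TT_mem A hA _ h2, mul_one, TT_mul'] at h3
  exact h3

theorem TT_mul (hA : ∀ a ∈ A, ∀ b ∈ A, a * b = b * a) (hc : commutator H ≤ A) (m n : H) :
    TT A (m * n) = TT A m * TT A n := by
  rw [TT_mul', TT_comm A hA hc]

theorem TT_pow (n : H) (k : ℕ) : TT A (n ^ k) = TT A n ^ k := by
  induction k with
  | zero => simp [TT_one]
  | succ k ih => rw [pow_succ, TT_mul', ih, ← pow_succ']

omit [A.Normal] in
/-- The characters form a finite dimensional space. -/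
theorem finV (hfg : A.FG) : Module.Finite (AlgebraicClosure ℚ) (VV A) := by
  have : Group.FG A := (Group.fg_iff_subgroup_fg A).2 hfg
  obtain ⟨S, hS⟩ := Group.FG.out (G := A)
  let ev : VV A →ₗ[AlgebraicClosure ℚ] (S → AlgebraicClosure ℚ) :=
    { toFun := fun f s => f (Additive.ofMul (s : A))
      map_add' := fun f g => by ext s; rfl
      map_smul' := fun c f => by ext s; rfl }
  refine Module.Finite.of_injective ev ?_
  rw [injective_iff_map_eq_zero]
  intro f hf
  refine AddMonoidHom.ext fun x => ?_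
  have hx : (Additive.toMul x) ∈ Subgroup.closure (S : Set A) := by rw [hS]; trivial
  have key : ∀ y : A, y ∈ Subgroup.closure (S : Set A) → f (Additive.ofMul y) = 0 := by
    intro y hy
    induction hy using Subgroup.closure_induction with
    | mem y hy => exact congrFun hf ⟨y, hy⟩
    | one => simp
    | mul a b _ _ h1 h2 => rw [ofMul_mul, map_add, h1, h2, add_zero]
    | inv a _ h => rw [ofMul_inv, map_neg, h, neg_zero]
  exact key _ hx


/-! ### Linear algebra -/

section LinAlg

open Polynomial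

theorem exists_unip {K : Type*} [Field K] [IsAlgClosed K] {V : Type*} [AddCommGroup V] [Module K V]
    [Module.Finite K V] (T : Module.End K V)
    (hT : ∀ μ, T.HasEigenvalue μ → ∃ k : ℕ, 0 < k ∧ μ ^ k = 1) :
    ∃ m : ℕ, 0 < m ∧ IsNilpotent (T ^ m - 1) := by
  classical
  have hint : IsIntegral K T := Algebra.IsIntegral.isIntegral T
  have hmon : (minpoly K T).Monic := minpoly.monic hint
  have hsp : (minpoly K T).Splits := IsAlgClosed.splits _
  have hr : ∀ μ, μ ∈ (minpoly K T).roots → ∃ k : ℕ, 0 < k ∧ μ ^ k = 1 := fun μ hμ =>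
    hT μ (Module.End.hasEigenvalue_of_isRoot (Polynomial.isRoot_of_mem_roots hμ))
  choose! k hk hk' using hr
  refine ⟨∏ μ ∈ (minpoly K T).roots.toFinset, k μ,
    Finset.prod_pos fun μ hμ => hk μ (Multiset.mem_toFinset.1 hμ), (minpoly K T).roots.card, ?_⟩
  set m := ∏ μ ∈ (minpoly K T).roots.toFinset, k μ with hm
  have hm1 : ∀ μ ∈ (minpoly K T).roots, μ ^ m = 1 := by
    intro μ hμ
    obtain ⟨c, hc⟩ := Finset.dvd_prod_of_mem k (Multiset.mem_toFinset.2 hμ)
    rw [hm, hc, pow_mul, hk' μ hμ, one_pow]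
  have hdvd : ∀ s : Multiset K, (∀ μ ∈ s, μ ^ m = 1) →
      (s.map (fun a => X - C a)).prod ∣ (X ^ m - 1 : K[X]) ^ s.card := by
    intro s
    induction s using Multiset.induction with
    | empty => intro _; simp
    | cons a s ih =>
      intro h
      rw [Multiset.map_cons, Multiset.prod_cons, Multiset.card_cons, pow_succ, mul_comm]
      refine mul_dvd_mul (ih fun μ hμ => h μ (Multiset.mem_cons_of_mem hμ)) ?_
      rw [Polynomial.dvd_iff_isRoot]
      simp [h a (Multiset.mem_cons_self a s)]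
  have h1 := hdvd _ hm1
  rw [← hsp.eq_prod_roots_of_monic hmon] at h1
  have h2 : aeval T ((X ^ m - 1 : K[X]) ^ (minpoly K T).roots.card) = 0 := by
    obtain ⟨q, hq⟩ := h1
    rw [hq, map_mul, minpoly.aeval, zero_mul]
  simpa using h2

variable {K : Type*} [Field K] {V : Type*} [AddCommGroup V] [Module K V] [Module.Finite K V]

theorem exists_step {ι : Type*} (N : ι → Module.End K V) (hN : ∀ i j, N i * N j = N j * N i)
    (hnil : ∀ i, IsNilpotent (N i)) (P : Submodule K V) (hP : P ≠ ⊤)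
    (hst : ∀ i, ∀ f ∈ P, N i f ∈ P) : ∃ f, f ∉ P ∧ ∀ i, N i f ∈ P := by
  classical
  have hcomm : ∀ i j f, N i (N j f) = N j (N i f) := fun i j f => by
    rw [← Module.End.mul_apply, hN, Module.End.mul_apply]
  obtain ⟨W, ⟨hW1, hW2⟩, hmin⟩ := (wellFounded_lt (α := Submodule K V)).has_min
    {W : Submodule K V | P < W ∧ ∀ i, ∀ f ∈ W, N i f ∈ W} ⟨⊤, lt_top_iff_ne_top.2 hP, fun _ _ _ => trivial⟩
  obtain ⟨f, hfW, hfP⟩ := SetLike.exists_of_lt hW1
  refine ⟨f, hfP, fun j => ?_⟩
  have hWj : W ⊓ P.comap (N j) = W := by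
    by_contra hne
    refine hmin (W ⊓ P.comap (N j)) ⟨?_, ?_⟩ (lt_of_le_of_ne inf_le_left hne)
    · refine lt_of_le_of_ne (le_inf hW1.le fun x hx => hst j x hx) ?_
      intro heq
      have hex : ∃ k : ℕ, ((N j) ^ k) f ∈ P := by
        obtain ⟨k, hk⟩ := hnil j
        exact ⟨k, by rw [hk]; exact P.zero_mem⟩
      have hspec := Nat.find_spec hex
      have hpos : Nat.find hex ≠ 0 := by
        intro h0
        rw [h0] at hspec
        exact hfP hspec
      obtain ⟨k, hk⟩ := Nat.exists_eq_succ_of_ne_zero hpos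
      have hkW : ∀ l : ℕ, ((N j) ^ l) f ∈ W := by
        intro l
        induction l with
        | zero => simpa using hfW
        | succ l ih => rw [pow_succ', Module.End.mul_apply]; exact hW2 j _ ih
      have hknot : ((N j) ^ k) f ∉ P := Nat.find_min hex (by omega)
      apply hknot
      rw [heq]
      refine ⟨hkW k, ?_⟩
      change N j (((N j) ^ k) f) ∈ P
      rw [← Module.End.mul_apply, ← pow_succ']
      rw [hk] at hspec
      exact hspec
    · rintro i x ⟨hx1, hx2⟩
      refine ⟨hW2 i x hx1, ?_⟩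
      change N j (N i x) ∈ P
      rw [hcomm]
      exact hst i _ hx2
  have : f ∈ W ⊓ P.comap (N j) := by rw [hWj]; exact hfW
  exact this.2

/-- The chain of subspaces. -/
def Kc {ι : Type*} (N : ι → Module.End K V) : ℕ → Submodule K V
  | 0 => ⊥
  | i + 1 => ⨅ j, (Kc N i).comap (N j)

omit [Module.Finite K V] in
theorem mem_Kc_succ {ι : Type*} (N : ι → Module.End K V) (i : ℕ) (f : V) :
    f ∈ Kc N (i + 1) ↔ ∀ j, N j f ∈ Kc N i := by
  simp [Kc, Submodule.mem_iInf]

theorem Kc_top {ι : Type*} (N : ι → Module.End K V) (hN : ∀ i j, N i * N j = N j * N i)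
    (hnil : ∀ i, IsNilpotent (N i)) : ∃ n, Kc N n = ⊤ := by
  have hcomm : ∀ i j f, N i (N j f) = N j (N i f) := fun i j f => by
    rw [← Module.End.mul_apply, hN, Module.End.mul_apply]
  have hst : ∀ n j, ∀ f ∈ Kc N n, N j f ∈ Kc N n := by
    intro n
    induction n with
    | zero => intro j f hf; rw [(Submodule.mem_bot K).1 hf, map_zero]; exact Submodule.zero_mem _
    | succ n ih =>
      intro j f hf
      rw [mem_Kc_succ] at hf ⊢
      intro l
      rw [hcomm]
      exact ih j _ (hf l)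
  have hmono : Monotone (Kc N) := by
    refine monotone_nat_of_le_succ fun n f hf => ?_
    rw [mem_Kc_succ]
    exact fun j => hst n j f hf
  obtain ⟨n, hn⟩ := monotone_stabilizes_iff_noetherian.2 (inferInstance : IsNoetherian K V)
    ⟨Kc N, hmono⟩
  refine ⟨n, ?_⟩
  by_contra hne
  obtain ⟨f, hf1, hf2⟩ := exists_step N hN hnil (Kc N n) hne (hst n)
  apply hf1
  have := hn (n + 1) (Nat.le_succ n)
  change Kc N n = Kc N (n + 1) at this
  rw [this, mem_Kc_succ]
  exact hf2

end LinAlg

/-- The common kernel of all characters of a finitely generated abelian group is finite. -/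
theorem fin_ann (M : Type u) [AddCommGroup M] [AddGroup.FG M] :
    {x : M | ∀ f : M →+ AlgebraicClosure ℚ, f x = 0}.Finite := by
  classical
  obtain ⟨n, ι, fι, p, hp, e, ⟨E⟩⟩ := AddCommGroup.equiv_free_prod_directSum_zmod M
  have : ∀ i : ι, NeZero (p i ^ e i) := fun i => ⟨pow_ne_zero _ (hp i).ne_zero⟩
  have : _root_.Finite (DirectSum ι fun i => ZMod (p i ^ e i)) :=
    Finite.of_equiv _ DFinsupp.equivFunOnFintype.symm
  refine Set.Finite.of_injOn (f := fun x => (E x).2) (t := Set.univ) (fun _ _ => trivial) ?_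
    Set.finite_univ
  have h0 : ∀ x : M, (∀ f : M →+ AlgebraicClosure ℚ, f x = 0) → (E x).1 = 0 := by
    intro x hx
    ext j
    have := hx ((Int.castAddHom (AlgebraicClosure ℚ)).comp
      ((Finsupp.applyAddHom j).comp ((AddMonoidHom.fst _ _).comp E.toAddMonoidHom)))
    change (((E x).1 j : ℤ) : AlgebraicClosure ℚ) = 0 at this
    simpa using this
  intro x hx y hy hxy
  apply E.injective
  exact Prod.ext ((h0 x hx).trans (h0 y hy).symm) hxy


/-! ### Unipotent operators, abstractly -/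

section Unip

variable {K : Type*} [Field K] {V : Type*} [AddCommGroup V] [Module K V]

/-- The operator minus the identity. -/
def NN (T : Module.End K V) : Module.End K V := T - 1

theorem NN_apply (T : Module.End K V) (f : V) : NN T f = T f - f := rfl

theorem NN_one : IsNilpotent (NN (1 : Module.End K V)) := by
  rw [NN, sub_self]; exact IsNilpotent.zero

theorem NN_mul (S T : Module.End K V) (h : S * T = T * S) (hS : IsNilpotent (NN S))
    (hT : IsNilpotent (NN T)) : IsNilpotent (NN (S * T)) := by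
  have hab : Commute S T := h
  rw [NN] at hS hT ⊢
  have h1 : S * T - 1 = (S - 1) * T + (T - 1) := by
    rw [sub_mul, one_mul]; abel
  rw [h1]
  have h2 : Commute (S - 1) T := hab.sub_left (Commute.one_left _)
  have h3 : Commute ((S - 1) * T) (T - 1) :=
    (Commute.mul_left h2 (Commute.refl _)).sub_right (Commute.one_right _)
  exact h3.isNilpotent_add (h2.isNilpotent_mul_right hS) hT

theorem NN_inv (S T : Module.End K V) (h : S * T = T * S) (h1 : S * T = 1)
    (hT : IsNilpotent (NN T)) : IsNilpotent (NN S) := by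
  have hab : Commute S T := h
  rw [NN] at hT ⊢
  have h2 : S - 1 = -(S * (T - 1)) := by
    rw [mul_sub, h1, mul_one]; abel
  rw [h2]
  have h3 : Commute S (T - 1) := hab.sub_right (Commute.one_right _)
  exact (h3.isNilpotent_mul_left hT).neg

theorem NN_comm (S T : Module.End K V) (h : S * T = T * S) : NN S * NN T = NN T * NN S := by
  rw [NN, NN, sub_mul, mul_sub, mul_sub, sub_mul, mul_sub, mul_sub, h]
  simp only [one_mul, mul_one]
  abel

theorem exists_unip' [IsAlgClosed K] [Module.Finite K V] (T : Module.End K V)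
    (hT : ∀ μ, T.HasEigenvalue μ → ∃ k : ℕ, 0 < k ∧ μ ^ k = 1) :
    ∃ m : ℕ, 0 < m ∧ IsNilpotent (NN (T ^ m)) := exists_unip T hT

end Unip

/-! ### The group part -/

section Grp

variable (hA : ∀ a ∈ A, ∀ b ∈ A, a * b = b * a) (hc : commutator H ≤ A)

/-- The elements acting unipotently on the characters. -/
noncomputable def UU : Subgroup H where
  carrier := {n | IsNilpotent (NN (TT A n))}
  one_mem' := by
    change IsNilpotent (NN (TT A 1))
    rw [TT_one]
    exact NN_one
  mul_mem' := by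
    intro a b ha hb
    change IsNilpotent (NN (TT A (a * b)))
    rw [TT_mul A hA hc]
    exact NN_mul _ _ (TT_comm A hA hc a b) ha hb
  inv_mem' := by
    intro a ha
    change IsNilpotent (NN (TT A a⁻¹))
    have h1 : TT A a⁻¹ * TT A a = 1 := by rw [← TT_mul A hA hc, inv_mul_cancel, TT_one]
    exact NN_inv _ _ (TT_comm A hA hc _ _) h1 ha

theorem mem_UU (n : H) : n ∈ UU A hA hc ↔ IsNilpotent (NN (TT A n)) := Iff.rfl

theorem le_UU : A ≤ UU A hA hc := by
  intro a ha
  rw [mem_UU, TT_mem A hA a ha]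
  exact NN_one

/-- The common kernel of the characters. -/
def FF : Subgroup H where
  carrier := {a | ∃ h : a ∈ A, ∀ f : VV A, f (Additive.ofMul ⟨a, h⟩) = 0}
  one_mem' := ⟨A.one_mem, fun f => f.map_zero⟩
  mul_mem' := by
    rintro a b ⟨ha, ha'⟩ ⟨hb, hb'⟩
    refine ⟨A.mul_mem ha hb, fun f => ?_⟩
    have : (Additive.ofMul (⟨a * b, A.mul_mem ha hb⟩ : A)) =
      Additive.ofMul (⟨a, ha⟩ : A) + Additive.ofMul (⟨b, hb⟩ : A) := rfl
    rw [this, map_add, ha', hb', add_zero]
  inv_mem' := by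
    rintro a ⟨ha, ha'⟩
    refine ⟨A.inv_mem ha, fun f => ?_⟩
    have : (Additive.ofMul (⟨a⁻¹, A.inv_mem ha⟩ : A)) = -Additive.ofMul (⟨a, ha⟩ : A) := rfl
    rw [this, map_neg, ha', neg_zero]

omit [A.Normal] in
theorem mem_FF (a : H) : a ∈ FF A ↔ ∃ h : a ∈ A, ∀ f : VV A, f (Additive.ofMul ⟨a, h⟩) = 0 :=
  Iff.rfl

instance FF_normal : (FF A).Normal := by
  refine ⟨?_⟩
  rintro a ⟨ha, ha'⟩ g
  have hg : g * a * g⁻¹ ∈ A := (inferInstance : A.Normal).conj_mem a ha g
  exact ⟨hg, fun f => ha' (TT A g f)⟩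

omit [A.Normal] in
theorem FF_finite (hA : ∀ a ∈ A, ∀ b ∈ A, a * b = b * a) (hfg : A.FG) : Finite (FF A) := by
  have hG : Group.FG A := (Group.fg_iff_subgroup_fg A).2 hfg
  let _ : CommGroup A :=
    { (inferInstance : Group A) with
      mul_comm := fun a b => Subtype.ext (hA a a.2 b b.2) }
  have h1 := fin_ann (Additive A)
  have h2 : (FF A : Set H) ⊆ (fun x : Additive A => ((Additive.toMul x : A) : H)) ''
      {x : Additive A | ∀ f : Additive A →+ AlgebraicClosure ℚ, f x = 0} := by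
    rintro a ⟨ha, ha'⟩
    exact ⟨Additive.ofMul ⟨a, ha⟩, ha', rfl⟩
  exact ((h1.image _).subset h2).to_subtype

/-- The zero set of a character. -/
def ZZ (f : VV A) : Subgroup H where
  carrier := {a | ∃ h : a ∈ A, f (Additive.ofMul ⟨a, h⟩) = 0}
  one_mem' := ⟨A.one_mem, f.map_zero⟩
  mul_mem' := by
    rintro a b ⟨ha, ha'⟩ ⟨hb, hb'⟩
    refine ⟨A.mul_mem ha hb, ?_⟩
    have : (Additive.ofMul (⟨a * b, A.mul_mem ha hb⟩ : A)) =
      Additive.ofMul (⟨a, ha⟩ : A) + Additive.ofMul (⟨b, hb⟩ : A) := rfl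
    rw [this, map_add, ha', hb', add_zero]
  inv_mem' := by
    rintro a ⟨ha, ha'⟩
    refine ⟨A.inv_mem ha, ?_⟩
    have : (Additive.ofMul (⟨a⁻¹, A.inv_mem ha⟩ : A)) = -Additive.ofMul (⟨a, ha⟩ : A) := rfl
    rw [this, map_neg, ha', neg_zero]

theorem chain_le (x : ℕ → Subgroup H) (hx : ∀ i, x (i + 1) = ⁅x i, UU A hA hc⁆) :
    ∀ i, ∀ f ∈ Kc (fun u : UU A hA hc => NN (TT A u)) i, x (i + 1) ≤ ZZ A f := by
  have hxA : ∀ i, x (i + 1) ≤ A := by
    intro i
    rw [hx]
    refine le_trans (Subgroup.commutator_mono le_top le_top) ?_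
    rw [← commutator_def]
    exact hc
  intro i
  induction i with
  | zero =>
    intro f hf a ha
    have hf0 : f = 0 := (Submodule.mem_bot _).1 hf
    exact ⟨hxA 0 ha, by rw [hf0]; rfl⟩
  | succ i ih =>
    intro f hf
    rw [mem_Kc_succ] at hf
    rw [hx (i + 1), Subgroup.commutator_le]
    intro b hb u hu
    have hbA : b ∈ A := hxA i hb
    obtain ⟨_, h1⟩ := ih _ (hf ⟨u, hu⟩) hb
    have hcA : u * b * u⁻¹ ∈ A := (inferInstance : A.Normal).conj_mem b hbA u
    have h2 : (TT A u f) (Additive.ofMul ⟨b, hbA⟩) = f (Additive.ofMul ⟨u * b * u⁻¹, hcA⟩) := rfl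
    have h3 : (TT A u f) (Additive.ofMul ⟨b, hbA⟩) - f (Additive.ofMul ⟨b, hbA⟩) = 0 := h1
    have hmem : ⁅b, u⁆ ∈ A := by
      have : ⁅b, u⁆ = b * (u * b * u⁻¹)⁻¹ := by rw [commutatorElement_def]; group
      rw [this]
      exact A.mul_mem hbA (A.inv_mem hcA)
    refine ⟨hmem, ?_⟩
    have h4 : (Additive.ofMul (⟨⁅b, u⁆, hmem⟩ : A)) =
        Additive.ofMul (⟨b, hbA⟩ : A) + -Additive.ofMul (⟨u * b * u⁻¹, hcA⟩ : A) := by
      change Additive.ofMul _ = Additive.ofMul ((⟨b, hbA⟩ : A) * (⟨u * b * u⁻¹, hcA⟩ : A)⁻¹)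
      congr 1
      apply Subtype.ext
      change ⁅b, u⁆ = b * (u * b * u⁻¹)⁻¹
      rw [commutatorElement_def]; group
    rw [h4, map_add, map_neg, ← h2]
    linear_combination -h3

theorem finIndex (hfin : Module.Finite (AlgebraicClosure ℚ) (VV A)) (hH : Group.FG H)
    (hT : ∀ n : H, ∀ μ, (TT A n).HasEigenvalue μ → ∃ k : ℕ, 0 < k ∧ μ ^ k = 1) :
    (UU A hA hc).FiniteIndex := by
  have hle : ∀ a b : H, (a * b)⁻¹ * (b * a) ∈ UU A hA hc := by
    intro a b
    apply le_UU A hA hc
    apply hc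
    have : (a * b)⁻¹ * (b * a) = ⁅b⁻¹, a⁻¹⁆ := by rw [commutatorElement_def]; group
    rw [this, commutator_def]
    exact Subgroup.commutator_mem_commutator (Subgroup.mem_top _) (Subgroup.mem_top _)
  have hn : (UU A hA hc).Normal := by
    refine ⟨fun u hu g => ?_⟩
    rw [mem_UU] at hu ⊢
    have h1 : TT A (g * u * g⁻¹) = TT A u := by
      rw [TT_mul A hA hc, TT_mul A hA hc, TT_comm A hA hc g u, mul_assoc, ← TT_mul A hA hc,
        mul_inv_cancel, TT_one, mul_one]
    rw [h1]
    exact hu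
  let _ : CommGroup (H ⧸ UU A hA hc) :=
    { QuotientGroup.Quotient.group (UU A hA hc) with
      mul_comm := by
        intro a b
        obtain ⟨a, rfl⟩ := QuotientGroup.mk_surjective a
        obtain ⟨b, rfl⟩ := QuotientGroup.mk_surjective b
        exact QuotientGroup.eq.2 (hle a b) }
  have hFG : Group.FG (H ⧸ UU A hA hc) := QuotientGroup.fg _
  have hfi : Finite (H ⧸ UU A hA hc) := by
    apply CommGroup.finite_of_fg_isMulTorsion
    intro a
    obtain ⟨a, rfl⟩ := QuotientGroup.mk_surjective a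
    obtain ⟨m, hm, hm'⟩ := exists_unip' (TT A a) (hT a)
    rw [← TT_pow] at hm'
    rw [isOfFinOrder_iff_pow_eq_one]
    refine ⟨m, hm, ?_⟩
    change ((a ^ m : H) : H ⧸ UU A hA hc) = _
    exact (QuotientGroup.eq_one_iff _).2 hm'
  exact Subgroup.finiteIndex_of_finite_quotient

end Grp

/-- Packet UNI. -/
theorem UNI (hF : FBN_stmt.{u}) : UNI_stmt.{u} := by
  classical
  intro H _ hH A hN hA hfg hc hVN
  have hfin := finV A hfg
  by_contra hcon
  have hT : ∀ n : H, ∀ μ, (TT A n).HasEigenvalue μ → ∃ k : ℕ, 0 < k ∧ μ ^ k = 1 := by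
    intro n μ hμ
    by_contra hk
    push Not at hk
    obtain ⟨f, hf⟩ := hμ.exists_hasEigenvector
    apply hcon
    have hf0 : ∃ a : A, f (Additive.ofMul a) ≠ 0 := by
      by_contra h
      push Not at h
      exact hf.2 (AddMonoidHom.ext fun x => h (Additive.toMul x))
    obtain ⟨a₀, ha₀⟩ := hf0
    refine ⟨n, μ, fun h => if hh : h ∈ A then f (Additive.ofMul ⟨h, hh⟩) else 0, ?_, ?_, ?_, hk⟩
    · intro a ha b hb
      simp only [dif_pos ha, dif_pos hb, dif_pos (A.mul_mem ha hb)]
      rw [← map_add]; rfl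
    · refine ⟨a₀, a₀.2, ?_⟩
      simp only [dif_pos a₀.2]
      exact ha₀
    · intro a ha
      have hg : n * a * n⁻¹ ∈ A := hN.conj_mem a ha n
      simp only [dif_pos ha, dif_pos hg]
      exact DFunLike.congr_fun hf.apply_eq_smul (Additive.ofMul (⟨a, ha⟩ : A))
  have hfinite := FF_finite A hA hfg
  have hidx := finIndex A hA hc hfin hH hT
  apply hVN
  refine hF H (FF A) (UU A hA hc) hfinite hidx ?_
  have hcomm : ∀ u v : UU A hA hc, NN (TT A u) * NN (TT A v) = NN (TT A v) * NN (TT A u) :=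
    fun u v => NN_comm _ _ (TT_comm A hA hc u v)
  obtain ⟨n, hn⟩ := Kc_top (fun u : UU A hA hc => NN (TT A u)) hcomm (fun u => u.2)
  refine ⟨n + 1, fun x hx0 hx => ?_⟩
  intro a ha
  have h1 : ∀ f : VV A, a ∈ ZZ A f := fun f =>
    chain_le A hA hc x hx n f (by rw [hn]; trivial) ha
  exact ⟨(h1 0).1, fun f => (h1 f).2⟩

end Pool.Agent.Helper73.GA
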